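import Mathlib
import Pool.Agent.H54.SuperCat3

namespace Pool.Agent.Results.MP_550cbf_nt.Int

open Nat Finset Pool.Agent.H54.SuperCat

/-- the normalised sum `a_n` -/
def a (n : ℕ) : ℚ :=
  1 / (n * (2 * n + 1) * ((2 * n).choose n : ℚ)) *
    ∑ k ∈ range n, (11 * k + 3) * ((2 * k).choose k : ℚ) ^ 2 * ((3 * k).choose k : ℚ) * 64 ^ (n - 1 - k)

def T (n j : ℕ) : ℚ := h n ^ 2 * h j * (2 * n + j)! / ((n + j)! * j ! * n ! * (2 * n)!)
def G (n j : ℕ) : ℚ := T n j * (24 * n ^ 2 / (2 * n + j))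
def P (n k : ℚ) : ℚ := -3 * k + 9 * k ^ 2 - 6 * k ^ 3 + 9 * n - 36 * n * k + 30 * n * k ^ 2 + 51 * n ^ 2
  - 66 * n ^ 2 * k + 66 * n ^ 3
def F (n j : ℕ) : ℚ := T n j * (P n (n - j) / ((n + j + 1) * (2 * n + j)))
def G2 (n j : ℕ) : ℚ := T n j * (-24 * n ^ 2 * (2 * n + 1) * (2 * j + 1) / ((2 * n - 1) * (2 * n + j)))
def V (n j : ℕ) : ℚ := T n j * (96 * n ^ 2 * j * (n + j) / ((2 * n - 1) * (2 * n + j)))

lemma wz (m j : ℕ) : F (m + 1) (j + 1) - F (m + 1) j = G (m + 1 + 1) (j + 1) - G (m + 1) j := by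
  simp only [F, G, T, P]
  rw [show 2 * (m + 1 + 1) + (j + 1) = 2 * (m + 1) + j + 1 + 1 + 1 by omega,
    show 2 * (m + 1) + (j + 1) = 2 * (m + 1) + j + 1 by omega,
    show m + 1 + 1 + (j + 1) = m + 1 + j + 1 + 1 by omega,
    show m + 1 + (j + 1) = m + 1 + j + 1 by omega,
    show 2 * (m + 1 + 1) = 2 * (m + 1) + 1 + 1 by omega]
  generalize hA : 2 * (m + 1) + j = A
  generalize hB : m + 1 + j = B
  generalize hC : 2 * (m + 1) = C
  rw [h.eq_2 (m + 1), factorial_succ (m + 1)]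
  generalize (m + 1)! = K
  generalize h (m + 1) = H
  simp only [h, factorial_succ]
  push_cast
  rcases Nat.eq_zero_or_pos K with rfl | hK
  · simp
  field_simp
  rw [← hA, ← hB, ← hC]
  push_cast
  ring

lemma wz0 (m : ℕ) : F (m + 1) 0 = G (m + 1 + 1) 0 := by
  simp only [F, G, T, P, add_zero, show 2 * (m + 1 + 1) = 2 * (m + 1) + 1 + 1 by ring]
  rw [h.eq_2 (m + 1), factorial_succ (m + 1), factorial_succ (2 * (m + 1) + 1), factorial_succ (2 * (m + 1))]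
  push_cast
  field_simp
  ring

lemma tele (m j : ℕ) : G (m + 1) j - G2 (m + 1) j = V (m + 1) (j + 1) - V (m + 1) j := by
  simp only [G2, G, T, V]
  rw [show 2 * (m + 1) + (j + 1) = 2 * (m + 1) + j + 1 by omega,
    show m + 1 + (j + 1) = m + 1 + j + 1 by omega, h.eq_2 j, factorial_succ j,
    factorial_succ (2 * (m + 1) + j), factorial_succ (m + 1 + j)]
  push_cast
  rw [show (2 * ((m : ℚ) + 1) - 1) = 2 * m + 1 by ring]
  field_simp
  ring

lemma TT (n : ℕ) : T n n = ((2 * n).choose n : ℚ) ^ 2 * ((3 * n).choose n : ℚ) / 64 ^ n := by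
  rw [c3, T, show 2 * n + n = 3 * n by ring, ← two_mul, h_eq, show (64 : ℚ) = 4 ^ 3 by norm_num, ← pow_mul]
  field_simp
  ring

lemma FF (m : ℕ) : F (m + 1) (m + 1) = (11 * (m + 1 : ℕ) + 3) * T (m + 1) (m + 1) := by
  rw [F, P]
  push_cast
  field_simp
  ring

lemma psi (n : ℕ) : ∑ j ∈ range (n + 1), G (n + 1) j = ∑ k ∈ range (n + 1), (11 * k + 3) * T k k := by
  induction n with
  | zero => simp [G, T, h, factorial]; norm_num
  | succ n ih =>
    rw [sum_range_succ', sum_range_succ _ (n + 1), ← ih, ← wz0, ← FF]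
    have := sum_range_sub (F (n + 1)) (n + 1)
    rw [sum_congr rfl fun j _ => wz n j, sum_sub_distrib] at this
    linarith

lemma psi2 (n : ℕ) : ∑ j ∈ range (n + 1), G (n + 1) j =
    ∑ j ∈ range (n + 1), G2 (n + 1) j + V (n + 1) (n + 1) := by
  have := sum_range_sub (V (n + 1)) (n + 1)
  rw [sum_congr rfl fun j _ => (tele n j).symm, sum_sub_distrib] at this
  simp only [V, Nat.cast_zero, mul_zero, zero_mul, zero_div, sub_zero] at this ⊢
  linarith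

/-- normalising factor -/
def W (n : ℕ) : ℚ := 64 ^ n / ((n + 1) * (2 * n + 3) * (4 ^ (n + 1) * h (n + 1) / (n + 1)!))

lemma a_eq (n : ℕ) : a (n + 1) = W n * ∑ j ∈ range (n + 1), G (n + 1) j := by
  rw [psi, a, cb, W, mul_sum, mul_sum]
  refine sum_congr rfl fun k hk => ?_
  obtain ⟨e, rfl⟩ := Nat.exists_eq_add_of_le (Nat.lt_succ_iff.1 (mem_range.1 hk))
  rw [TT, show k + e + 1 - 1 - k = e by omega, pow_add]
  have := (h_pos (k + e + 1)).ne'
  push_cast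
  field_simp
  ring

lemma t1 (j e : ℕ) : (2 * (j + e : ℕ) + 3) * (W (j + e) * G (j + e + 1) j) =
    3 * 4 ^ e / 4 * (4 ^ (j + e + 1 + j) * h (j + e + 1) * h j / (j + e + 1 + j)!) *
      ((2 * (j + e) + 1 + j)! / ((2 * (j + e) + 1)! * j !)) := by
  simp only [W, G, T]
  rw [show 2 * (j + e + 1) + j = 2 * (j + e) + 1 + j + 1 by ring,
    show 2 * (j + e + 1) = 2 * (j + e) + 1 + 1 by ring, factorial_succ (2 * (j + e) + 1 + j),
    factorial_succ (2 * (j + e) + 1), show (64 : ℚ) = 4 ^ 3 by norm_num, ← pow_mul]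
  have := (h_pos (j + e + 1)).ne'
  push_cast
  field_simp
  ring

lemma t2 (j e : ℕ) : 4 * (W (j + e) * G2 (j + e + 1) j) =
    -3 * 4 ^ e * (4 ^ (j + e + (j + 1)) * h (j + e) * h (j + 1) / (j + e + (j + 1))!) *
      ((2 * (j + e) + 1 + j)! / ((2 * (j + e) + 1)! * j !)) := by
  simp only [W, G2, T]
  rw [show 2 * (j + e + 1) + j = 2 * (j + e) + 1 + j + 1 by ring,
    show 2 * (j + e + 1) = 2 * (j + e) + 1 + 1 by ring, factorial_succ (2 * (j + e) + 1 + j),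
    factorial_succ (2 * (j + e) + 1), show (64 : ℚ) = 4 ^ 3 by norm_num, ← pow_mul,
    show j + e + (j + 1) = j + e + 1 + j by ring, h.eq_2 j, h.eq_2 (j + e)]
  have := (h_pos (j + e)).ne'
  push_cast
  rw [show (2 * ((j : ℚ) + e + 1) - 1) = 2 * (j + e) + 1 by ring]
  field_simp
  ring

lemma t3 (n : ℕ) : W n * V (n + 1) (n + 1) = 2 * (n + 1) * (4 ^ n * h n / n !) *
    ((3 * (n + 1))! / ((n + 1)! * (2 * (n + 1))!) / (2 * (n + 1 : ℕ) + 1)) := by
  have e : ((2 * (n + 1))! : ℚ) = h (n + 1) * (4 ^ (n + 1) * (n + 1)!) := by rw [h_eq]; field_simp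
  rw [W, V, T, show 2 * (n + 1) + (n + 1) = 3 * (n + 1) by ring, ← two_mul, e,
    show (64 : ℚ) = 4 ^ 3 by norm_num, ← pow_mul, h.eq_2 n, factorial_succ n]
  have := (h_pos n).ne'
  push_cast
  rw [show (2 * ((n : ℚ) + 1) - 1) = 2 * n + 1 by ring]
  field_simp
  ring

lemma t4 (j : ℕ) : 4 ^ (j + 0 + 1 + j) * h (j + 0 + 1) * h j / (j + 0 + 1 + j)! =
    2 * (4 ^ j * h j / j !) := by
  rw [show j + 0 + 1 + j = 2 * j + 1 by ring, add_zero, h.eq_2, factorial_succ, h_eq]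
  push_cast
  field_simp
  ring

theorem result (n : ℕ) (hn : 2 ≤ n) : ∃ z : ℤ, a n = z := by
  obtain ⟨n, rfl⟩ : ∃ m, n = m + 1 + 1 := ⟨n - 2, by omega⟩
  have I : ∃ x : ℤ, ((2 * n + 5 : ℤ) : ℚ) * a (n + 1 + 1) = x := by
    rw [a_eq, mul_sum, mul_sum]
    refine sum_int fun j hj => ?_
    obtain ⟨e, he⟩ := Nat.exists_eq_add_of_le (Nat.lt_succ_iff.1 hj)
    obtain ⟨y, hy⟩ := bin (2 * (j + e) + 1) j
    rw [show ((2 * n + 5 : ℤ) : ℚ) = 2 * (n + 1 : ℕ) + 3 by push_cast; ring, he, t1, hy]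
    cases e with
    | zero =>
      obtain rfl : j = n + 1 := by omega
      obtain ⟨x, hx⟩ := even_cb n
      rw [t4, hx]
      exact ⟨3 * x * y, by push_cast; ring⟩
    | succ e =>
      obtain ⟨x, hx⟩ := sc (j + (e + 1) + 1) j
      rw [hx]
      exact ⟨3 * 4 ^ e * x * y, by push_cast; ring⟩
  have II : ∃ y : ℤ, ((4 : ℤ) : ℚ) * a (n + 1 + 1) = y := by
    rw [a_eq, psi2, mul_add, mul_add, mul_sum, mul_sum]
    push_cast
    obtain ⟨x, hx⟩ := sum_int (n := n + 1 + 1) (f := fun j => 4 * (W (n + 1) * G2 (n + 1 + 1) j))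
      fun j hj => by
        obtain ⟨e, he⟩ := Nat.exists_eq_add_of_le (Nat.lt_succ_iff.1 hj)
        obtain ⟨y, hy⟩ := bin (2 * (j + e) + 1) j
        obtain ⟨z, hz⟩ := sc (j + e) (j + 1)
        rw [he, t2, hy, hz]
        exact ⟨-3 * 4 ^ e * z * y, by push_cast; ring⟩
    obtain ⟨z, hz⟩ := fc (n + 1 + 1)
    rw [hx, t3, hz, ← cb]
    exact ⟨x + 8 * (n + 2) * (2 * (n + 1)).choose (n + 1) * z, by push_cast; ring⟩
  obtain ⟨x, hx⟩ := I
  obtain ⟨y, hy⟩ := II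
  refine int_of_coprime ?_ hx hy
  rw [show (4 : ℤ) = 2 ^ 2 by norm_num]
  exact IsCoprime.pow_right ⟨1, -((n : ℤ) + 2), by ring⟩

end Pool.Agent.Results.MP_550cbf_nt.Int
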